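import Pool.Agent.H76.MnrC

set_option autoImplicit false

namespace Pool.Agent.Results.MP_58d2c7_al.Counter

/-- A finite group and a prime `p` such that the number of conjugacy classes of `p`-regular
elements exceeds the class number of every subgroup of order prime to `p`. -/
theorem result : ∃ (G : Type) (_ : Group G) (_ : Finite G) (p : ℕ), p.Prime ∧
    ∀ H : Subgroup G, ¬ p ∣ Nat.card H →
      Nat.card (ConjClasses H) <
        {c : ConjClasses G | ∃ g, ConjClasses.mk g = c ∧ ¬ p ∣ orderOf g}.ncard :=
  ⟨H76.MnrC.G, inferInstance, inferInstance, 3, Nat.prime_three, fun H h =>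
    lt_of_lt_of_le (Nat.lt_succ_of_le (H76.MnrC.upper H h)) H76.MnrC.lower⟩

end Pool.Agent.Results.MP_58d2c7_al.Counter
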